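import Pool.Agent.W221.NS.Stm2
import Pool.Agent.W337.MD.PK1

/-!
Project ME, part PK1b: the pressure at small scales, tested with another field.
(Adapted from the file Pool.Agent.W337.MD.PK1.)
-/

set_option autoImplicit false

open MeasureTheory Set Metric
open scoped ContDiff

namespace W605.ME.PK1b

open H459R3.NS W221.NS Pool.Agent.W337.MD.PK1

lemma ibp2 {v : V → V} (hv : ContDiff ℝ ∞ v) {φ d : V → ℝ} (hφ : ContDiff ℝ ∞ φ)
    (hd : ContDiff ℝ ∞ d) (hc : HasCompactSupport φ)
    (hdiv : ∀ x, φ x = 0 ∨ dv v x = 0) :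
    ∫ z, d z * adv v φ z = -∫ z, φ z * adv v d z := by
  have hint : ∀ i, Integrable fun z => (d z * v z i) * pd i φ z := fun i =>
    ((hd.continuous.mul (comp_smooth hv i).continuous).mul
      (pd_smooth hφ i).continuous).integrable_of_hasCompactSupport
      (HasCompactSupport.mul_left (hc.fderiv_apply ℝ _))
  have hint2 : ∀ i, Integrable fun z => pd i (fun z => d z * v z i) z * φ z := fun i =>
    ((pd_smooth (hd.mul (comp_smooth hv i)) i).continuous.mul
      hφ.continuous).integrable_of_hasCompactSupport (HasCompactSupport.mul_left hc)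
  have hint3 : ∀ i, Integrable fun z => (d z * v z i) * φ z := fun i =>
    ((hd.continuous.mul (comp_smooth hv i).continuous).mul
      hφ.continuous).integrable_of_hasCompactSupport (HasCompactSupport.mul_left hc)
  have h1 : ∀ i, ∫ z, (d z * v z i) * pd i φ z = -∫ z, pd i (fun z => d z * v z i) z * φ z := by
    intro i
    exact integral_mul_fderiv_eq_neg_fderiv_mul_of_integrable (hint2 i) (hint i) (hint3 i)
      (fun x _ => (hd.mul (comp_smooth hv i)).differentiable (by simp) x)
      (fun x _ => hφ.differentiable (by simp) x)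
  have h2 : (fun z => d z * adv v φ z) = fun z => ∑ i, (d z * v z i) * pd i φ z := by
    funext z
    unfold adv
    rw [Finset.mul_sum]
    exact Finset.sum_congr rfl fun i _ => by ring
  have h3 : (fun z => φ z * adv v d z) = fun z => ∑ i, pd i (fun z => d z * v z i) z * φ z := by
    funext z
    have h4 : ∑ i, pd i (fun z => d z * v z i) z * φ z =
        φ z * (adv v d z + d z * dv v z) := by
      unfold adv dv
      rw [Finset.mul_sum, ← Finset.sum_add_distrib, Finset.mul_sum]
      refine Finset.sum_congr rfl fun i _ => ?_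
      rw [pd_mul hd (comp_smooth hv i)]
      ring
    rw [h4]
    rcases hdiv z with h5 | h5
    · rw [h5, zero_mul, zero_mul]
    · rw [h5, mul_zero, add_zero]
  rw [h2, h3, integral_finsetSum _ fun i _ => hint i, integral_finsetSum _ fun i _ => hint2 i,
    ← Finset.sum_neg_distrib]
  exact Finset.sum_congr rfl fun i _ => h1 i

theorem t_PK1b (h : S_HARM) : S_PK1b := by
  obtain ⟨CH, hCH, hH⟩ := h
  intro C₀ hC₀
  set K : ℝ := √(4096 * CH * C₀) with hK
  have hK0 : 0 ≤ K := Real.sqrt_nonneg _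
  refine ⟨2 * √C₀ + 2 * K + 1, by positivity, ?_⟩
  intro v W hv hW a Q hdiv hQ k hk M φ hM hφ hφ0 hφG
  have hvc := hv.continuous
  have hWc := hW.continuous
  have hcomp := hcs hφ0
  have hrk : rr k ≤ 1 / 4 := by
    have h1 := rr_anti (show 2 ≤ k by omega)
    have h2 : rr 2 = 1 / 4 := by unfold rr; norm_num
    linarith
  have hdz : ∀ x, φ x = 0 ∨ dv W x = 0 := by
    intro x
    by_cases hx : x ∈ ball a (rr k)
    · exact Or.inr (hdiv x (ball_subset_ball hrk hx))
    · exact Or.inl (hφ0 x hx)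
  -- telescoping
  have htel : ∀ z, Q 3 z = Q (k - 2) z + ∑ j ∈ Finset.Ico 3 (k - 2), (Q j z - Q (j + 1) z) := by
    intro z
    have h1 := Finset.sum_Ico_sub (fun j => -Q j z) (m := 3) (n := k - 2) (by omega)
    have h2 : ∑ j ∈ Finset.Ico 3 (k - 2), (Q j z - Q (j + 1) z) =
        ∑ j ∈ Finset.Ico 3 (k - 2), (-Q (j + 1) z - -Q j z) :=
      Finset.sum_congr rfl fun j _ => by ring
    rw [h2, h1]
    ring
  have hadvc := adv_cont hW hφ
  have hadv0 : HasCompactSupport (adv W φ) := by
    have h1 : adv W φ = fun z => ∑ j, W z j * pd j φ z := rfl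
    rw [h1]
    refine HasCompactSupport.intro (K := tsupport φ) hcomp fun z hz => ?_
    refine Finset.sum_eq_zero fun j _ => ?_
    have h2 : pd j φ z = 0 := by
      unfold pd
      have h3 : fderiv ℝ φ z = 0 := by
        by_contra hne
        exact hz (support_fderiv_subset ℝ (Function.mem_support.2 hne))
      rw [h3]; rfl
    rw [h2, mul_zero]
  have hint : ∀ f : V → ℝ, Continuous f → Integrable fun z => f z * adv W φ z := fun f hf =>
    (hf.mul hadvc).integrable_of_hasCompactSupport (HasCompactSupport.mul_left hadv0)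
  have hsplit : ∫ z, Q 3 z * adv W φ z = (∫ z, Q (k - 2) z * adv W φ z) +
      ∑ j ∈ Finset.Ico 3 (k - 2), ∫ z, (Q j z - Q (j + 1) z) * adv W φ z := by
    have h1 : (fun z => Q 3 z * adv W φ z) = fun z => Q (k - 2) z * adv W φ z +
        ∑ j ∈ Finset.Ico 3 (k - 2), (Q j z - Q (j + 1) z) * adv W φ z := by
      funext z
      rw [htel z, add_mul, Finset.sum_mul]
    have h2 : ∀ j ∈ Finset.Ico 3 (k - 2), Integrable fun z => (Q j z - Q (j + 1) z) * adv W φ z :=
      fun j _ => hint _ ((hQ j).1.continuous.sub (hQ (j + 1)).1.continuous)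
    rw [h1, integral_add (hint _ (hQ _).1.continuous) (integrable_finsetSum _ h2),
      integral_finsetSum _ h2]
  -- first term
  have hpd0 : ∀ z ∉ ball a (rr k), adv W φ z = 0 := by
    intro z hz
    unfold adv
    exact Finset.sum_eq_zero fun j _ => by rw [pd_out hφ (rr_pos k).ne' hφ0 j z hz, mul_zero]
  have hA : |∫ z, Q (k - 2) z * adv W φ z| ≤
      2 * √C₀ * (M * 16 ^ k * √(L4 a (rr (k - 2)) v) * √(A2 a (rr k) W)) := by
    have h1 := gen (F := fun z => Q (k - 2) z * adv W φ z) (f := Q (k - 2)) (v := W) (a := a)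
      (r := rr k) (m := 2 * (M * 16 ^ k)) (hQ _).1.continuous hWc (by positivity)
      (fun z hz => by simp only [hpd0 z hz, mul_zero])
      (fun z _ => by
        rw [abs_mul]
        have h2 := adv_le (v := W) (f := φ) (z := z) (κ := M * 16 ^ k) (by positivity) (hφG z)
        have h3 := mul_le_mul_of_nonneg_left h2 (abs_nonneg (Q (k - 2) z))
        linarith)
    have h4 : √(∫ z in ball a (rr k), Q (k - 2) z ^ 2) ≤ √C₀ * √(L4 a (rr (k - 2)) v) := by
      rw [← Real.sqrt_mul hC₀.le]
      exact Real.sqrt_le_sqrt ((sq_mono (hQ _).1.continuous a (rr_anti (by omega))).trans (hQ _).2.2)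
    refine h1.trans ?_
    have h5 : √(∫ z in ball a (rr k), Q (k - 2) z ^ 2) * √(A2 a (rr k) W) ≤
        √C₀ * √(L4 a (rr (k - 2)) v) * √(A2 a (rr k) W) :=
      mul_le_mul_of_nonneg_right h4 (Real.sqrt_nonneg _)
    have h6 := mul_le_mul_of_nonneg_left h5 (show (0:ℝ) ≤ 2 * (M * 16 ^ k) by positivity)
    refine h6.trans (le_of_eq ?_)
    ring
  -- the other terms
  obtain ⟨I, hI⟩ : ∃ I : ℝ, I = ∫ z, |φ z| * √(nsq W z) := ⟨_, rfl⟩
  have hcφ : Continuous fun z => |φ z| * √(nsq W z) := hφ.continuous.abs.mul (nsq_cont hWc).sqrt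
  have hIint : Integrable fun z => |φ z| * √(nsq W z) :=
    hcφ.integrable_of_hasCompactSupport (HasCompactSupport.mul_right (hcomp.comp_left abs_zero))
  have hI0 : 0 ≤ I := by
    rw [hI]; exact integral_nonneg fun z => by positivity
  have hB : ∀ j ∈ Finset.Ico 3 (k - 2), |∫ z, (Q j z - Q (j + 1) z) * adv W φ z| ≤
      2 * K * (√(32 ^ j) * √(L4 a (rr j) v)) * I := by
    intro j hj
    rw [Finset.mem_Ico] at hj
    have hds : ContDiff ℝ ∞ (fun z => Q j z - Q (j + 1) z) := (hQ j).1.sub (hQ (j + 1)).1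
    rw [ibp2 hW hφ hds hcomp hdz, abs_neg]
    have hlap : ∀ x ∈ ball a (rr (j + 2)), lap (fun z => Q j z - Q (j + 1) z) x = 0 := by
      intro x hx
      rw [lap_sub (hQ j).1 (hQ (j + 1)).1]
      have h1 := (hQ j).2.1 x (ball_subset_ball
        (by rw [rr_half]; exact rr_anti (by omega)) hx)
      have h2 := (hQ (j + 1)).2.1 x (ball_subset_ball
        (by rw [rr_half]) hx)
      linarith
    have hnorm : ∫ x in ball a (rr (j + 2)), (Q j x - Q (j + 1) x) ^ 2 ≤
        4 * C₀ * L4 a (rr j) v := by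
      have h1 : ∫ x in ball a (rr (j + 2)), (Q j x - Q (j + 1) x) ^ 2 ≤
          ∫ x in ball a (rr (j + 2)), (2 * Q j x ^ 2 + 2 * Q (j + 1) x ^ 2) := by
        refine setIntegral_mono (intOn (hds.continuous.pow 2) _ _)
          (intOn ((continuous_const.mul ((hQ j).1.continuous.pow 2)).add
            (continuous_const.mul ((hQ (j + 1)).1.continuous.pow 2))) _ _) fun x => ?_
        show (Q j x - Q (j + 1) x) ^ 2 ≤ 2 * Q j x ^ 2 + 2 * Q (j + 1) x ^ 2
        nlinarith [sq_nonneg (Q j x + Q (j + 1) x)]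
      have h5 : ∫ x in ball a (rr (j + 2)), (2 * Q j x ^ 2 + 2 * Q (j + 1) x ^ 2) =
          (∫ x in ball a (rr (j + 2)), 2 * Q j x ^ 2) +
          ∫ x in ball a (rr (j + 2)), 2 * Q (j + 1) x ^ 2 :=
        integral_add (intOn (continuous_const.mul ((hQ j).1.continuous.pow 2)) _ _)
          (intOn (continuous_const.mul ((hQ (j + 1)).1.continuous.pow 2)) _ _)
      rw [h5, integral_const_mul, integral_const_mul] at h1
      have h2 := (sq_mono (hQ j).1.continuous a (rr_anti (show j ≤ j + 2 by omega))).trans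
        (hQ j).2.2
      have h3 := (sq_mono (hQ (j + 1)).1.continuous a
        (rr_anti (show j + 1 ≤ j + 2 by omega))).trans (hQ (j + 1)).2.2
      have h4 := mul_le_mul_of_nonneg_left (L4_mono hvc a (rr_anti (show j ≤ j + 1 by omega)))
        hC₀.le
      linarith
    have hgrad : ∀ z ∈ ball a (rr k), ∀ i,
        |pd i (fun z => Q j z - Q (j + 1) z) z| ≤ K * √(32 ^ j) * √(L4 a (rr j) v) := by
      intro z hz i
      have h1 := (hH _ hds a (rr (j + 2)) (rr_pos _) hlap z
        (ball_subset_ball (by rw [rr_half]; exact rr_anti (by omega)) hz) i).1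
      have h2 : (rr (j + 2) ^ 5)⁻¹ = 1024 * 32 ^ j := by
        unfold rr
        rw [← pow_mul, one_div, inv_pow, inv_inv, add_mul, pow_add, mul_comm j 5, pow_mul]
        norm_num
        ring
      rw [h2] at h1
      have h3 : CH * (1024 * 32 ^ j) * ∫ x in ball a (rr (j + 2)), (Q j x - Q (j + 1) x) ^ 2 ≤
          CH * (1024 * 32 ^ j) * (4 * C₀ * L4 a (rr j) v) :=
        mul_le_mul_of_nonneg_left hnorm (by positivity)
      have h4 : K * √(32 ^ j) * √(L4 a (rr j) v) =
          √(4096 * CH * C₀ * 32 ^ j * L4 a (rr j) v) := by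
        rw [hK, Real.sqrt_mul (show (0:ℝ) ≤ 4096 * CH * C₀ * 32 ^ j by positivity) (L4 a (rr j) v),
          Real.sqrt_mul (show (0:ℝ) ≤ 4096 * CH * C₀ by positivity) (32 ^ j)]
      rw [h4]
      apply Real.abs_le_sqrt
      refine (h1.trans h3).trans (le_of_eq ?_)
      ring
    have hpt : ∀ z, |φ z * adv W (fun z => Q j z - Q (j + 1) z) z| ≤
        2 * (K * √(32 ^ j) * √(L4 a (rr j) v)) * (|φ z| * √(nsq W z)) := by
      intro z
      by_cases hz : z ∈ ball a (rr k)
      · rw [abs_mul]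
        have h2 := adv_le (v := W) (f := fun z => Q j z - Q (j + 1) z) (z := z)
          (κ := K * √(32 ^ j) * √(L4 a (rr j) v)) (by positivity) (hgrad z hz)
        have h3 := mul_le_mul_of_nonneg_left h2 (abs_nonneg (φ z))
        linarith
      · rw [hφ0 z hz]; simp
    calc |∫ z, φ z * adv W (fun z => Q j z - Q (j + 1) z) z|
        ≤ ∫ z, |φ z * adv W (fun z => Q j z - Q (j + 1) z) z| := abs_integral_le_integral_abs
      _ ≤ ∫ z, 2 * (K * √(32 ^ j) * √(L4 a (rr j) v)) * (|φ z| * √(nsq W z)) :=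
          integral_mono_of_nonneg (Filter.Eventually.of_forall fun z => abs_nonneg _)
            (hIint.const_mul _) (Filter.Eventually.of_forall hpt)
      _ = 2 * K * (√(32 ^ j) * √(L4 a (rr j) v)) * I := by
          rw [integral_const_mul, hI]; ring
  -- conclusion
  rw [hsplit]
  refine (abs_add_le _ _).trans ?_
  have hsum : |∑ j ∈ Finset.Ico 3 (k - 2), ∫ z, (Q j z - Q (j + 1) z) * adv W φ z| ≤
      2 * K * (∑ j ∈ Finset.Ico 3 (k - 2), √(32 ^ j) * √(L4 a (rr j) v)) * I := by
    refine (Finset.abs_sum_le_sum_abs _ _).trans ((Finset.sum_le_sum hB).trans (le_of_eq ?_))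
    rw [← Finset.sum_mul, ← Finset.mul_sum]
  rw [← hI]
  set X := M * 16 ^ k * √(L4 a (rr (k - 2)) v) * √(A2 a (rr k) W) with hX
  set Y := ∑ j ∈ Finset.Ico 3 (k - 2), √(32 ^ j) * √(L4 a (rr j) v) with hY
  have hX0 : 0 ≤ X := by positivity
  have hY0 : 0 ≤ Y := Finset.sum_nonneg fun j _ => by positivity
  have e1 : 0 ≤ √C₀ := Real.sqrt_nonneg _
  have e2 : 0 ≤ Y * I := mul_nonneg hY0 hI0
  have e3 : 2 * √C₀ * X + 2 * K * Y * I ≤ (2 * √C₀ + 2 * K + 1) * (X + Y * I) := by
    have e4 : (2 * √C₀ + 2 * K + 1) * (X + Y * I) = 2 * √C₀ * X + 2 * K * Y * I +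
        (2 * √C₀ * (Y * I) + 2 * K * X + (X + Y * I)) := by ring
    rw [e4]
    have e5 : 0 ≤ 2 * √C₀ * (Y * I) + 2 * K * X + (X + Y * I) := by positivity
    linarith
  exact (add_le_add hA hsum).trans e3

end W605.ME.PK1b
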